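import Pool.Agent.Q115.Clo.Logic

set_option autoImplicit false

/-!
The finite basis.
-/

namespace Pool.Agent.Q115.Clo

open Pool.Agent.Q119.Clo

universe u v w z t

section model

variable {R : Type u} {S : Type v} {ι : Type w} {ar : ι → ℕ} [Ring R] [Ring S]

/-- The axioms of `R`-modules. -/
inductive Ax1 (R : Type u) [Ring R] : Term1 R → Term1 R → Prop
  | assoc : Ax1 R (.add (.add (.var 0) (.var 1)) (.var 2)) (.add (.var 0) (.add (.var 1) (.var 2)))
  | comm : Ax1 R (.add (.var 0) (.var 1)) (.add (.var 1) (.var 0))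
  | zero : Ax1 R (.add .zero (.var 0)) (.var 0)
  | neg : Ax1 R (.add (.neg (.var 0)) (.var 0)) .zero
  | one : Ax1 R (.smul 1 (.var 0)) (.var 0)
  | mul (r s : R) : Ax1 R (.smul (r * s) (.var 0)) (.smul r (.smul s (.var 0)))
  | distr (r s : R) : Ax1 R (.smul (r + s) (.var 0)) (.add (.smul r (.var 0)) (.smul s (.var 0)))
  | distl (r : R) : Ax1 R (.smul r (.add (.var 0) (.var 1)))
      (.add (.smul r (.var 0)) (.smul r (.var 1)))

/-- The axioms of `S`-modules. -/
inductive Ax2 (R : Type u) (S : Type v) {ι : Type w} (ar : ι → ℕ) [Ring S] :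
    Term2 R S ar → Term2 R S ar → Prop
  | assoc : Ax2 R S ar (.add (.add (.var 0) (.var 1)) (.var 2))
      (.add (.var 0) (.add (.var 1) (.var 2)))
  | comm : Ax2 R S ar (.add (.var 0) (.var 1)) (.add (.var 1) (.var 0))
  | zero : Ax2 R S ar (.add .zero (.var 0)) (.var 0)
  | neg : Ax2 R S ar (.add (.neg (.var 0)) (.var 0)) .zero
  | one : Ax2 R S ar (.smul 1 (.var 0)) (.var 0)
  | mul (r s : S) : Ax2 R S ar (.smul (r * s) (.var 0)) (.smul r (.smul s (.var 0)))
  | distr (r s : S) : Ax2 R S ar (.smul (r + s) (.var 0))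
      (.add (.smul r (.var 0)) (.smul s (.var 0)))
  | distl (r : S) : Ax2 R S ar (.smul r (.add (.var 0) (.var 1)))
      (.add (.smul r (.var 0)) (.smul r (.var 1)))

theorem ax1_finite [Finite R] : {p : Term1 R × Term1 R | Ax1 R p.1 p.2}.Finite := by
  have h : {p : Term1 R × Term1 R | Ax1 R p.1 p.2} ⊆
      ({(.add (.add (.var 0) (.var 1)) (.var 2), .add (.var 0) (.add (.var 1) (.var 2)))} ∪
      {(.add (.var 0) (.var 1), .add (.var 1) (.var 0))} ∪
      {(.add .zero (.var 0), .var 0)} ∪
      {(.add (.neg (.var 0)) (.var 0), .zero)} ∪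
      {(.smul 1 (.var 0), .var 0)} ∪
      Set.range (fun p : R × R => ((.smul (p.1 * p.2) (.var 0), .smul p.1 (.smul p.2 (.var 0))) :
        Term1 R × Term1 R)) ∪
      Set.range (fun p : R × R => ((.smul (p.1 + p.2) (.var 0),
        .add (.smul p.1 (.var 0)) (.smul p.2 (.var 0))) : Term1 R × Term1 R)) ∪
      Set.range (fun r : R => ((.smul r (.add (.var 0) (.var 1)),
        .add (.smul r (.var 0)) (.smul r (.var 1))) : Term1 R × Term1 R))) := by
    rintro ⟨a, b⟩ h
    simp only [Set.mem_union, Set.mem_singleton_iff, Set.mem_range]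
    cases h with
    | assoc => simp
    | comm => simp
    | zero => simp
    | neg => simp
    | one => simp
    | mul r s => left; left; right; exact ⟨(r, s), rfl⟩
    | distr r s => left; right; exact ⟨(r, s), rfl⟩
    | distl r => right; exact ⟨r, rfl⟩
  refine Set.Finite.subset ?_ h
  simp only [Set.finite_union, Set.finite_singleton, true_and]
  exact ⟨⟨Set.finite_range _, Set.finite_range _⟩, Set.finite_range _⟩

theorem ax2_finite [Finite S] : {p : Term2 R S ar × Term2 R S ar | Ax2 R S ar p.1 p.2}.Finite := by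
  have h : {p : Term2 R S ar × Term2 R S ar | Ax2 R S ar p.1 p.2} ⊆
      ({(.add (.add (.var 0) (.var 1)) (.var 2), .add (.var 0) (.add (.var 1) (.var 2)))} ∪
      {(.add (.var 0) (.var 1), .add (.var 1) (.var 0))} ∪
      {(.add .zero (.var 0), .var 0)} ∪
      {(.add (.neg (.var 0)) (.var 0), .zero)} ∪
      {(.smul 1 (.var 0), .var 0)} ∪
      Set.range (fun p : S × S => ((.smul (p.1 * p.2) (.var 0), .smul p.1 (.smul p.2 (.var 0))) :
        Term2 R S ar × Term2 R S ar)) ∪
      Set.range (fun p : S × S => ((.smul (p.1 + p.2) (.var 0),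
        .add (.smul p.1 (.var 0)) (.smul p.2 (.var 0))) : Term2 R S ar × Term2 R S ar)) ∪
      Set.range (fun r : S => ((.smul r (.add (.var 0) (.var 1)),
        .add (.smul r (.var 0)) (.smul r (.var 1))) : Term2 R S ar × Term2 R S ar))) := by
    rintro ⟨a, b⟩ h
    simp only [Set.mem_union, Set.mem_singleton_iff, Set.mem_range]
    cases h with
    | assoc => simp
    | comm => simp
    | zero => simp
    | neg => simp
    | one => simp
    | mul r s => left; left; right; exact ⟨(r, s), rfl⟩
    | distr r s => left; right; exact ⟨(r, s), rfl⟩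
    | distl r => right; exact ⟨r, rfl⟩
  refine Set.Finite.subset ?_ h
  simp only [Set.finite_union, Set.finite_singleton, true_and]
  exact ⟨⟨Set.finite_range _, Set.finite_range _⟩, Set.finite_range _⟩

variable {A : Type z} {B : Type t} [AddCommGroup A] [AddCommGroup B] [Module R A] [Module S B]

theorem ax1_valid {a b : Term1 R} (h : Ax1 R a b) (x : ℕ → A) : a.eval x = b.eval x := by
  cases h with
  | assoc => exact add_assoc _ _ _
  | comm => exact add_comm _ _
  | zero => exact zero_add _
  | neg => exact neg_add_cancel _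
  | one => exact one_smul _ _
  | mul r s => exact mul_smul _ _ _
  | distr r s => exact add_smul _ _ _
  | distl r => exact smul_add _ _ _

theorem ax2_valid {a b : Term2 R S ar} (h : Ax2 R S ar a b) (f : ∀ i, (Fin (ar i) → A) → B)
    (x : ℕ → A) (y : ℕ → B) : a.eval f x y = b.eval f x y := by
  cases h with
  | assoc => exact add_assoc _ _ _
  | comm => exact add_comm _ _
  | zero => exact zero_add _
  | neg => exact neg_add_cancel _
  | one => exact one_smul _ _
  | mul r s => exact mul_smul _ _ _
  | distr r s => exact add_smul _ _ _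
  | distl r => exact smul_add _ _ _

/-! ### The term model -/

variable (E₁ : Set (Term1 R × Term1 R)) (E₂ : Set (Term2 R S ar × Term2 R S ar))

/-- Derivable equality. -/
def std1 : Setoid (Term1 R) where
  r := Derives1 E₁
  iseqv := ⟨Derives1.refl, Derives1.symm, Derives1.trans⟩

/-- Derivable equality. -/
def std2 : Setoid (Term2 R S ar) where
  r := Derives2 E₁ E₂
  iseqv := ⟨Derives2.refl, Derives2.symm, Derives2.trans⟩

/-- The first sort of the term model. -/
def Q1 : Type u := Quotient (std1 E₁)

/-- The second sort of the term model. -/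
def Q2 : Type (max u v w) := Quotient (std2 E₁ E₂)

/-- The class of a term. -/
def mk1 (s : Term1 R) : Q1 E₁ := Quotient.mk (std1 E₁) s

/-- The class of a term. -/
def mk2 (s : Term2 R S ar) : Q2 E₁ E₂ := Quotient.mk (std2 E₁ E₂) s

variable {E₁ E₂}

theorem mk1_eq {s t : Term1 R} : mk1 E₁ s = mk1 E₁ t ↔ Derives1 E₁ s t :=
  ⟨fun h => Quotient.exact h, fun h => Quotient.sound h⟩

theorem mk2_eq {s t : Term2 R S ar} : mk2 E₁ E₂ s = mk2 E₁ E₂ t ↔ Derives2 E₁ E₂ s t :=
  ⟨fun h => Quotient.exact h, fun h => Quotient.sound h⟩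

theorem mk1_surj (q : Q1 E₁) : ∃ s, mk1 E₁ s = q := Quotient.exists_rep q

theorem mk2_surj (q : Q2 E₁ E₂) : ∃ s, mk2 E₁ E₂ s = q := Quotient.exists_rep q

/-- The assignment `a, b, c, c, ...`. -/
def tri {X : Type*} (a b c : X) : ℕ → X
  | 0 => a
  | 1 => b
  | _ => c

/-- The group structure on the first sort of the term model. -/
@[reducible] noncomputable def grp1 (h1 : ∀ a b, Ax1 R a b → (a, b) ∈ E₁) :
    AddCommGroup (Q1 E₁) :=
  letI : Add (Q1 E₁) :=
    ⟨Quotient.map₂ Term1.add (fun _ _ h _ _ h' => Derives1.add h h')⟩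
  letI : Neg (Q1 E₁) := ⟨Quotient.map Term1.neg (fun _ _ h => Derives1.neg h)⟩
  letI : Zero (Q1 E₁) := ⟨mk1 E₁ .zero⟩
  { AddGroup.ofLeftAxioms (G := Q1 E₁)
      (by
        intro a b c
        induction a using Quotient.ind
        induction b using Quotient.ind
        induction c using Quotient.ind
        rename_i a b c
        exact Quotient.sound (Derives1.ax (h1 _ _ Ax1.assoc) (tri a b c)))
      (by
        intro a
        induction a using Quotient.ind
        rename_i a
        exact Quotient.sound (Derives1.ax (h1 _ _ Ax1.zero) (tri a a a)))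
      (by
        intro a
        induction a using Quotient.ind
        rename_i a
        exact Quotient.sound (Derives1.ax (h1 _ _ Ax1.neg) (tri a a a))) with
    add_comm := by
      intro a b
      induction a using Quotient.ind
      induction b using Quotient.ind
      rename_i a b
      exact Quotient.sound (Derives1.ax (h1 _ _ Ax1.comm) (tri a b b)) }

/-- The module structure on the first sort of the term model. -/
@[reducible] noncomputable def mod1 (h1 : ∀ a b, Ax1 R a b → (a, b) ∈ E₁) :
    letI := grp1 h1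
    Module R (Q1 E₁) :=
  letI := grp1 h1
  letI : SMul R (Q1 E₁) := ⟨fun r => Quotient.map (Term1.smul r) (fun _ _ h => h.smul r)⟩
  Module.ofMinimalAxioms
    (by
      intro r a b
      induction a using Quotient.ind
      induction b using Quotient.ind
      rename_i a b
      exact Quotient.sound (Derives1.ax (h1 _ _ (Ax1.distl r)) (tri a b b)))
    (by
      intro r s a
      induction a using Quotient.ind
      rename_i a
      exact Quotient.sound (Derives1.ax (h1 _ _ (Ax1.distr r s)) (tri a a a)))
    (by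
      intro r s a
      induction a using Quotient.ind
      rename_i a
      exact Quotient.sound (Derives1.ax (h1 _ _ (Ax1.mul r s)) (tri a a a)))
    (by
      intro a
      induction a using Quotient.ind
      rename_i a
      exact Quotient.sound (Derives1.ax (h1 _ _ Ax1.one) (tri a a a)))

/-- The group structure on the second sort of the term model. -/
@[reducible] noncomputable def grp2 (h2 : ∀ a b, Ax2 R S ar a b → (a, b) ∈ E₂) :
    AddCommGroup (Q2 E₁ E₂) :=
  letI : Add (Q2 E₁ E₂) :=
    ⟨Quotient.map₂ Term2.add (fun _ _ h _ _ h' => Derives2.add h h')⟩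
  letI : Neg (Q2 E₁ E₂) := ⟨Quotient.map Term2.neg (fun _ _ h => Derives2.neg h)⟩
  letI : Zero (Q2 E₁ E₂) := ⟨mk2 E₁ E₂ .zero⟩
  { AddGroup.ofLeftAxioms (G := Q2 E₁ E₂)
      (by
        intro a b c
        induction a using Quotient.ind
        induction b using Quotient.ind
        induction c using Quotient.ind
        rename_i a b c
        exact Quotient.sound (Derives2.ax (h2 _ _ Ax2.assoc) Term1.var (tri a b c)))
      (by
        intro a
        induction a using Quotient.ind
        rename_i a
        exact Quotient.sound (Derives2.ax (h2 _ _ Ax2.zero) Term1.var (tri a a a)))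
      (by
        intro a
        induction a using Quotient.ind
        rename_i a
        exact Quotient.sound (Derives2.ax (h2 _ _ Ax2.neg) Term1.var (tri a a a))) with
    add_comm := by
      intro a b
      induction a using Quotient.ind
      induction b using Quotient.ind
      rename_i a b
      exact Quotient.sound (Derives2.ax (h2 _ _ Ax2.comm) Term1.var (tri a b b)) }

/-- The module structure on the second sort of the term model. -/
@[reducible] noncomputable def mod2 (h2 : ∀ a b, Ax2 R S ar a b → (a, b) ∈ E₂) :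
    letI := grp2 (E₁ := E₁) h2
    Module S (Q2 E₁ E₂) :=
  letI := grp2 (E₁ := E₁) h2
  letI : SMul S (Q2 E₁ E₂) := ⟨fun r => Quotient.map (Term2.smul r) (fun _ _ h => h.smul r)⟩
  Module.ofMinimalAxioms
    (by
      intro r a b
      induction a using Quotient.ind
      induction b using Quotient.ind
      rename_i a b
      exact Quotient.sound (Derives2.ax (h2 _ _ (Ax2.distl r)) Term1.var (tri a b b)))
    (by
      intro r s a
      induction a using Quotient.ind
      rename_i a
      exact Quotient.sound (Derives2.ax (h2 _ _ (Ax2.distr r s)) Term1.var (tri a a a)))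
    (by
      intro r s a
      induction a using Quotient.ind
      rename_i a
      exact Quotient.sound (Derives2.ax (h2 _ _ (Ax2.mul r s)) Term1.var (tri a a a)))
    (by
      intro a
      induction a using Quotient.ind
      rename_i a
      exact Quotient.sound (Derives2.ax (h2 _ _ Ax2.one) Term1.var (tri a a a)))

/-- The operations of the term model. -/
noncomputable def opQ (E₁ : Set (Term1 R × Term1 R)) (E₂ : Set (Term2 R S ar × Term2 R S ar))
    (i : ι) (q : Fin (ar i) → Q1 E₁) : Q2 E₁ E₂ :=
  mk2 E₁ E₂ (.app i (fun a => Quotient.out (q a)))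

theorem mk2_app (i : ι) (s : Fin (ar i) → Term1 R) :
    mk2 E₁ E₂ (.app i s) = opQ E₁ E₂ i (fun a => mk1 E₁ (s a)) := by
  refine mk2_eq.2 (Derives2.app i (fun a => ?_))
  exact Derives1.symm (Quotient.mk_out (s := std1 E₁) (s a))

theorem mk1_subst (h1 : ∀ a b, Ax1 R a b → (a, b) ∈ E₁) (σ : ℕ → Term1 R) (s : Term1 R) :
    letI := grp1 h1
    letI := mod1 h1
    mk1 E₁ (s.subst σ) = s.eval (fun n => mk1 E₁ (σ n)) := by
  letI := grp1 h1
  letI := mod1 h1
  change mk1 E₁ (s.subst σ) = s.eval (fun n => mk1 E₁ (σ n))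
  induction s with
  | var n => rfl
  | zero => rfl
  | neg s ih =>
    change _ = -(s.eval (fun n => mk1 E₁ (σ n)))
    rw [← ih]; rfl
  | add s t ih ih' =>
    change _ = s.eval (fun n => mk1 E₁ (σ n)) + t.eval (fun n => mk1 E₁ (σ n))
    rw [← ih, ← ih']; rfl
  | smul r s ih =>
    change _ = r • s.eval (fun n => mk1 E₁ (σ n))
    rw [← ih]; rfl

theorem mk2_subst (h1 : ∀ a b, Ax1 R a b → (a, b) ∈ E₁)
    (h2 : ∀ a b, Ax2 R S ar a b → (a, b) ∈ E₂) (σ : ℕ → Term1 R) (τ : ℕ → Term2 R S ar)
    (s : Term2 R S ar) :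
    letI := grp1 h1
    letI := mod1 h1
    letI := grp2 (E₁ := E₁) h2
    letI := mod2 (E₁ := E₁) h2
    mk2 E₁ E₂ (s.subst σ τ)
      = s.eval (opQ E₁ E₂) (fun n => mk1 E₁ (σ n)) (fun n => mk2 E₁ E₂ (τ n)) := by
  letI := grp1 h1
  letI := mod1 h1
  letI := grp2 (E₁ := E₁) h2
  letI := mod2 (E₁ := E₁) h2
  change mk2 E₁ E₂ (s.subst σ τ)
      = s.eval (opQ E₁ E₂) (fun n => mk1 E₁ (σ n)) (fun n => mk2 E₁ E₂ (τ n))
  induction s with
  | var n => rfl
  | zero => rfl
  | neg s ih =>
    change _ = -(s.eval (opQ E₁ E₂) (fun n => mk1 E₁ (σ n)) (fun n => mk2 E₁ E₂ (τ n)))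
    rw [← ih]; rfl
  | add s t ih ih' =>
    change _ = s.eval (opQ E₁ E₂) (fun n => mk1 E₁ (σ n)) (fun n => mk2 E₁ E₂ (τ n))
      + t.eval (opQ E₁ E₂) (fun n => mk1 E₁ (σ n)) (fun n => mk2 E₁ E₂ (τ n))
    rw [← ih, ← ih']; rfl
  | smul r s ih =>
    change _ = r • s.eval (opQ E₁ E₂) (fun n => mk1 E₁ (σ n)) (fun n => mk2 E₁ E₂ (τ n))
    rw [← ih]; rfl
  | app i s =>
    change mk2 E₁ E₂ (.app i (fun a => (s a).subst σ))
      = opQ E₁ E₂ i (fun a => (s a).eval (fun n => mk1 E₁ (σ n)))
    rw [mk2_app]
    congr 1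
    funext a
    exact mk1_subst h1 σ (s a)

end model

end Pool.Agent.Q115.Clo
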