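import Pool.Agent.Q115.Clo.Rel

set_option autoImplicit false

/-!
Two-sorted terms over a module in each sort, and two-sorted equational logic.
-/

namespace Pool.Agent.Q115.Clo

universe u v w z t

/-- Terms of the first sort: the variables are `x_0, x_1, ...`. -/
inductive Term1 (R : Type u) : Type u
  | var (n : ℕ) : Term1 R
  | zero : Term1 R
  | neg (s : Term1 R) : Term1 R
  | add (s t : Term1 R) : Term1 R
  | smul (r : R) (s : Term1 R) : Term1 R

/-- Terms of the second sort: the variables are `y_0, y_1, ...`, the symbol `i` takes `ar i`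
arguments of the first sort. -/
inductive Term2 (R : Type u) (S : Type v) {ι : Type w} (ar : ι → ℕ) : Type (max u v w)
  | var (n : ℕ) : Term2 R S ar
  | zero : Term2 R S ar
  | neg (s : Term2 R S ar) : Term2 R S ar
  | add (s t : Term2 R S ar) : Term2 R S ar
  | smul (r : S) (s : Term2 R S ar) : Term2 R S ar
  | app (i : ι) (s : Fin (ar i) → Term1 R) : Term2 R S ar

section

variable {R : Type u} {S : Type v} {ι : Type w} {ar : ι → ℕ}

/-- Substitution in a term of the first sort. -/
def Term1.subst (σ : ℕ → Term1 R) : Term1 R → Term1 R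
  | .var n => σ n
  | .zero => .zero
  | .neg s => .neg (s.subst σ)
  | .add s t => .add (s.subst σ) (t.subst σ)
  | .smul r s => .smul r (s.subst σ)

/-- Substitution in a term of the second sort. -/
def Term2.subst (σ : ℕ → Term1 R) (τ : ℕ → Term2 R S ar) : Term2 R S ar → Term2 R S ar
  | .var n => τ n
  | .zero => .zero
  | .neg s => .neg (s.subst σ τ)
  | .add s t => .add (s.subst σ τ) (t.subst σ τ)
  | .smul r s => .smul r (s.subst σ τ)
  | .app i s => .app i (fun a => (s a).subst σ)

/-- Derivability of identities of the first sort from the set `E` of identities. -/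
inductive Derives1 (E : Set (Term1 R × Term1 R)) : Term1 R → Term1 R → Prop
  | ax {s t : Term1 R} (h : (s, t) ∈ E) (σ : ℕ → Term1 R) : Derives1 E (s.subst σ) (t.subst σ)
  | refl (s : Term1 R) : Derives1 E s s
  | symm {s t : Term1 R} (h : Derives1 E s t) : Derives1 E t s
  | trans {s t u : Term1 R} (h : Derives1 E s t) (h' : Derives1 E t u) : Derives1 E s u
  | neg {s s' : Term1 R} (h : Derives1 E s s') : Derives1 E (.neg s) (.neg s')
  | add {s s' t t' : Term1 R} (h : Derives1 E s s') (h' : Derives1 E t t') :
      Derives1 E (.add s t) (.add s' t')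
  | smul (r : R) {s s' : Term1 R} (h : Derives1 E s s') : Derives1 E (.smul r s) (.smul r s')

/-- Derivability of identities of the second sort from the set `E₁` of identities of the first
sort and the set `E₂` of identities of the second sort. -/
inductive Derives2 (E₁ : Set (Term1 R × Term1 R)) (E₂ : Set (Term2 R S ar × Term2 R S ar)) :
    Term2 R S ar → Term2 R S ar → Prop
  | ax {s t : Term2 R S ar} (h : (s, t) ∈ E₂) (σ : ℕ → Term1 R) (τ : ℕ → Term2 R S ar) :
      Derives2 E₁ E₂ (s.subst σ τ) (t.subst σ τ)
  | refl (s : Term2 R S ar) : Derives2 E₁ E₂ s s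
  | symm {s t : Term2 R S ar} (h : Derives2 E₁ E₂ s t) : Derives2 E₁ E₂ t s
  | trans {s t u : Term2 R S ar} (h : Derives2 E₁ E₂ s t) (h' : Derives2 E₁ E₂ t u) :
      Derives2 E₁ E₂ s u
  | neg {s s' : Term2 R S ar} (h : Derives2 E₁ E₂ s s') : Derives2 E₁ E₂ (.neg s) (.neg s')
  | add {s s' t t' : Term2 R S ar} (h : Derives2 E₁ E₂ s s') (h' : Derives2 E₁ E₂ t t') :
      Derives2 E₁ E₂ (.add s t) (.add s' t')
  | smul (r : S) {s s' : Term2 R S ar} (h : Derives2 E₁ E₂ s s') :
      Derives2 E₁ E₂ (.smul r s) (.smul r s')
  | app (i : ι) {s s' : Fin (ar i) → Term1 R} (h : ∀ a, Derives1 E₁ (s a) (s' a)) :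
      Derives2 E₁ E₂ (.app i s) (.app i s')

variable [Ring R] [Ring S] {A : Type z} {B : Type t} [AddCommGroup A] [AddCommGroup B]
  [Module R A] [Module S B]

/-- The value of a term of the first sort in the module `A`. -/
def Term1.eval (x : ℕ → A) : Term1 R → A
  | .var n => x n
  | .zero => 0
  | .neg s => -(s.eval x)
  | .add s t => s.eval x + t.eval x
  | .smul r s => r • s.eval x

/-- The value of a term of the second sort. -/
def Term2.eval (f : ∀ i, (Fin (ar i) → A) → B) (x : ℕ → A) (y : ℕ → B) : Term2 R S ar → B
  | .var n => y n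
  | .zero => 0
  | .neg s => -(s.eval f x y)
  | .add s t => s.eval f x y + t.eval f x y
  | .smul r s => r • s.eval f x y
  | .app i s => f i (fun a => (s a).eval x)

end

/-! ### Normal forms -/

section nf

variable {R : Type u} {S : Type v} {ι : Type w} {ar : ι → ℕ}

/-- All variables have index at most `k`. -/
def Term1.Below (k : ℕ) : Term1 R → Prop
  | .var n => n ≤ k
  | .zero => True
  | .neg s => s.Below k
  | .add s t => s.Below k ∧ t.Below k
  | .smul _ s => s.Below k

def Term2.Below (k : ℕ) : Term2 R S ar → Prop
  | .var n => n ≤ k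
  | .zero => True
  | .neg s => s.Below k
  | .add s t => s.Below k ∧ t.Below k
  | .smul _ s => s.Below k
  | .app _ s => ∀ a, (s a).Below k

theorem Term1.Below.mono {k l : ℕ} (h : k ≤ l) {s : Term1 R} : s.Below k → s.Below l := by
  induction s with
  | var n => exact fun h' => le_trans h' h
  | zero => exact id
  | neg s ih => exact ih
  | add s t ih ih' => exact fun h' => ⟨ih h'.1, ih' h'.2⟩
  | smul r s ih => exact ih

theorem Term2.Below.mono {k l : ℕ} (h : k ≤ l) {s : Term2 R S ar} : s.Below k → s.Below l := by
  induction s with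
  | var n => exact fun h' => le_trans h' h
  | zero => exact id
  | neg s ih => exact ih
  | add s t ih ih' => exact fun h' => ⟨ih h'.1, ih' h'.2⟩
  | smul r s ih => exact ih
  | app i s => exact fun h' a => (h' a).mono h

theorem Term1.exists_below (s : Term1 R) : ∃ k, s.Below k := by
  induction s with
  | var n => exact ⟨n, le_rfl⟩
  | zero => exact ⟨0, trivial⟩
  | neg s ih => exact ih
  | add s t ih ih' =>
    obtain ⟨k, hk⟩ := ih
    obtain ⟨l, hl⟩ := ih'
    exact ⟨max k l, hk.mono (le_max_left _ _), hl.mono (le_max_right _ _)⟩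
  | smul r s ih => exact ih

theorem Term2.exists_below (s : Term2 R S ar) : ∃ k, s.Below k := by
  induction s with
  | var n => exact ⟨n, le_rfl⟩
  | zero => exact ⟨0, trivial⟩
  | neg s ih => exact ih
  | add s t ih ih' =>
    obtain ⟨k, hk⟩ := ih
    obtain ⟨l, hl⟩ := ih'
    exact ⟨max k l, hk.mono (le_max_left _ _), hl.mono (le_max_right _ _)⟩
  | smul r s ih => exact ih
  | app i s =>
    choose k hk using fun a => (s a).exists_below
    exact ⟨Finset.univ.sup k, fun a => (hk a).mono (Finset.le_sup (Finset.mem_univ a))⟩

variable [Ring R] [Ring S]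

/-- The coefficients of a term of the first sort. -/
def Term1.coef : Term1 R → ℕ → R
  | .var n => Pi.single n 1
  | .zero => 0
  | .neg s => -s.coef
  | .add s t => s.coef + t.coef
  | .smul r s => r • s.coef

/-- The coefficients of the variables of a term of the second sort. -/
def Term2.coef : Term2 R S ar → ℕ → S
  | .var n => Pi.single n 1
  | .zero => 0
  | .neg s => -s.coef
  | .add s t => s.coef + t.coef
  | .smul r s => r • s.coef
  | .app _ _ => 0

open Classical in
/-- The matrix of coefficients of the arguments of an operation symbol. -/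
noncomputable def wordOf (k : ℕ) (i : ι) (s : Fin (ar i) → Term1 R) : Fin (k + 1) → Col R ar :=
  fun j p => if h : p.1 = i then (s (h ▸ p.2)).coef j else 0

open Classical in
/-- The combination of the operation symbols in a term of the second sort. -/
noncomputable def Term2.comb (k : ℕ) : Term2 R S ar → (Fin (k + 1) → Col R ar) → (ι → S)
  | .var _ => 0
  | .zero => 0
  | .neg s => -s.comb k
  | .add s t => s.comb k + t.comb k
  | .smul r s => r • s.comb k
  | .app i s => fun w i' => if w = wordOf k i s ∧ i' = i then 1 else 0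

variable {A : Type z} {B : Type t} [AddCommGroup A] [AddCommGroup B] [Module R A] [Module S B]

theorem Term1.eval_eq (k : ℕ) (x : ℕ → A) (s : Term1 R) (hs : s.Below k) :
    s.eval x = ∑ j : Fin (k + 1), s.coef j • x j := by
  induction s with
  | var n =>
    have hn : n < k + 1 := Nat.lt_succ_of_le hs
    rw [Finset.sum_eq_single (⟨n, hn⟩ : Fin (k + 1))]
    · simp [Term1.eval, Term1.coef]
    · intro b _ hb
      have : (b : ℕ) ≠ n := fun h => hb (Fin.ext h)
      simp [Term1.coef, this]
    · intro h; exact absurd (Finset.mem_univ _) h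
  | zero => simp [Term1.eval, Term1.coef]
  | neg s ih => simp [Term1.eval, Term1.coef, ih hs]
  | add s t ih ih' => simp [Term1.eval, Term1.coef, ih hs.1, ih' hs.2, add_smul,
      Finset.sum_add_distrib]
  | smul r s ih => simp [Term1.eval, Term1.coef, ih hs, mul_smul, Finset.smul_sum]

variable [Fintype R] [Fintype ι] [DecidableEq ι]

theorem Term2.eval_eq (k : ℕ) (f : ∀ i, (Fin (ar i) → A) → B) (x : ℕ → A) (y : ℕ → B)
    (s : Term2 R S ar) (hs : s.Below k) :
    s.eval f x y = ∑ j : Fin (k + 1), s.coef j • y j
      + val f (s.comb k) (fun j : Fin (k + 1) => x j) := by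
  classical
  induction s with
  | var n =>
    have hn : n < k + 1 := Nat.lt_succ_of_le hs
    have h0 : val (S := S) f ((Term2.var n : Term2 R S ar).comb k)
        (fun j : Fin (k + 1) => x j) = 0 := val_zero f _
    rw [h0, add_zero, Finset.sum_eq_single (⟨n, hn⟩ : Fin (k + 1))]
    · simp [Term2.eval, Term2.coef]
    · intro b _ hb
      have : (b : ℕ) ≠ n := fun h => hb (Fin.ext h)
      simp [Term2.coef, this]
    · intro h; exact absurd (Finset.mem_univ _) h
  | zero => 
    have h0 : val (S := S) f ((Term2.zero : Term2 R S ar).comb k)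
        (fun j : Fin (k + 1) => x j) = 0 := val_zero f _
    simp [Term2.eval, Term2.coef, h0]
  | neg s ih =>
    have h0 : val f ((Term2.neg s).comb k) (fun j : Fin (k + 1) => x j)
        = - val f (s.comb k) (fun j : Fin (k + 1) => x j) := val_neg f _ _
    simp only [Term2.eval, ih hs, h0, Term2.coef, Pi.neg_apply, neg_smul,
      Finset.sum_neg_distrib]
    abel
  | add s t ih ih' =>
    have h0 : val f ((Term2.add s t).comb k) (fun j : Fin (k + 1) => x j)
        = val f (s.comb k) (fun j : Fin (k + 1) => x j)
          + val f (t.comb k) (fun j : Fin (k + 1) => x j) := val_add f _ _ _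
    simp only [Term2.eval, ih hs.1, ih' hs.2, h0, Term2.coef, Pi.add_apply, add_smul,
      Finset.sum_add_distrib]
    abel
  | smul r s ih =>
    have h0 : val f ((Term2.smul r s).comb k) (fun j : Fin (k + 1) => x j)
        = r • val f (s.comb k) (fun j : Fin (k + 1) => x j) := val_smul f _ _ _
    simp only [Term2.eval, ih hs, h0, Term2.coef, Pi.smul_apply, smul_eq_mul, mul_smul,
      smul_add, Finset.smul_sum]
  | app i s =>
    have h0 : ∀ j : Fin (k + 1), (Term2.app (S := S) i s).coef j • y j = 0 := by
      intro j; simp [Term2.coef]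
    simp only [h0, Finset.sum_const_zero, zero_add]
    have hc : ∀ w i', (Term2.app (S := S) i s).comb k w i'
        = if w = wordOf k i s ∧ i' = i then (1 : S) else 0 := by
      intro w i'
      simp only [Term2.comb]
      by_cases h : w = wordOf k i s ∧ i' = i
      · rw [if_pos h, if_pos h]
      · rw [if_neg h, if_neg h]
    unfold val
    rw [Finset.sum_eq_single (wordOf k i s)]
    · rw [Finset.sum_eq_single i]
      · rw [hc, if_pos ⟨rfl, rfl⟩, one_smul]
        simp only [Term2.eval]
        congr 1
        funext a
        rw [Term1.eval_eq k x (s a) (hs a)]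
        simp [argOf, wordOf]
      · intro b _ hb
        rw [hc, if_neg (fun h => hb h.2), zero_smul]
      · intro h; exact absurd (Finset.mem_univ _) h
    · intro b _ hb
      apply Finset.sum_eq_zero
      intro i' _
      rw [hc, if_neg (fun h => hb h.1), zero_smul]
    · intro h; exact absurd (Finset.mem_univ _) h

end nf

end Pool.Agent.Q115.Clo
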