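import Pool.Agent.Q115.Clo.Basis

set_option autoImplicit false

/-!
The finite basis theorem.
-/

namespace Pool.Agent.Q115.Clo

open Pool.Agent.Q119.Clo

universe u v w z t

section

variable {R : Type u} {S : Type v} {ι : Type w} {ar : ι → ℕ}

theorem Term1.subst_var (s : Term1 R) : s.subst Term1.var = s := by
  induction s with
  | var n => rfl
  | zero => rfl
  | neg s ih => simp only [Term1.subst, ih]
  | add s t ih ih' => simp only [Term1.subst, ih, ih']
  | smul r s ih => simp only [Term1.subst, ih]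

theorem Term2.subst_var (s : Term2 R S ar) : s.subst Term1.var Term2.var = s := by
  induction s with
  | var n => rfl
  | zero => rfl
  | neg s ih => simp only [Term2.subst, ih]
  | add s t ih ih' => simp only [Term2.subst, ih, ih']
  | smul r s ih => simp only [Term2.subst, ih]
  | app i s => simp only [Term2.subst, Term1.subst_var]

/-- Sums of terms. -/
def sum1 : List (Term1 R) → Term1 R
  | [] => .zero
  | s :: l => .add s (sum1 l)

/-- Sums of terms. -/
def sum2 : List (Term2 R S ar) → Term2 R S ar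
  | [] => .zero
  | s :: l => .add s (sum2 l)

variable [Ring R] [Ring S] {A : Type z} {B : Type t} [AddCommGroup A] [AddCommGroup B]
  [Module R A] [Module S B]

theorem sum1_eval (x : ℕ → A) (l : List (Term1 R)) :
    (sum1 l).eval x = (l.map (fun s => s.eval x)).sum := by
  induction l with
  | nil => rfl
  | cons s l ih => simp [sum1, Term1.eval, ih]

theorem sum2_eval (f : ∀ i, (Fin (ar i) → A) → B) (x : ℕ → A) (y : ℕ → B)
    (l : List (Term2 R S ar)) :
    (sum2 l).eval f x y = (l.map (fun s => s.eval f x y)).sum := by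
  induction l with
  | nil => rfl
  | cons s l ih => simp [sum2, Term2.eval, ih]

/-- The argument given by a matrix. -/
noncomputable def argTerm {k : ℕ} (w : Fin (k + 1) → Col R ar) (i : ι) (a : Fin (ar i)) :
    Term1 R :=
  sum1 ((Finset.univ.toList : List (Fin (k + 1))).map (fun j => .smul (w j ⟨i, a⟩) (.var j)))

theorem argTerm_eval {k : ℕ} (w : Fin (k + 1) → Col R ar) (i : ι) (a : Fin (ar i))
    (x : ℕ → A) : (argTerm w i a).eval x = argOf w i (fun j => x j) a := by
  unfold argTerm argOf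
  rw [sum1_eval, List.map_map]
  exact Finset.sum_map_toList _ _

variable [Fintype R] [Fintype ι] [DecidableEq ι]

open Classical in
/-- The term of a formal combination. -/
noncomputable def relTerm {k : ℕ} (c : (Fin (k + 1) → Col R ar) → (ι → S)) : Term2 R S ar :=
  sum2 ((Finset.univ.toList : List ((Fin (k + 1) → Col R ar) × ι)).map
    (fun p => .smul (c p.1 p.2) (.app p.2 (argTerm p.1 p.2))))

theorem relTerm_eval {k : ℕ} (c : (Fin (k + 1) → Col R ar) → (ι → S))
    (f : ∀ i, (Fin (ar i) → A) → B) (x : ℕ → A) (y : ℕ → B) :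
    (relTerm c).eval f x y = val f c (fun j => x j) := by
  classical
  unfold relTerm val
  rw [sum2_eval, List.map_map, ← Fintype.sum_prod_type']
  have h := Finset.sum_map_toList (Finset.univ : Finset ((Fin (k + 1) → Col R ar) × ι))
    (fun p => c p.1 p.2 • f p.2 (argOf p.1 p.2 (fun j => x j)))
  rw [← h]
  congr 1
  apply List.map_congr_left
  intro p _
  simp only [Function.comp, Term2.eval]
  congr 2
  funext a
  exact argTerm_eval p.1 p.2 a x

end

theorem main {R : Type u} {S : Type v} {ι : Type w} {ar : ι → ℕ} [Ring R] [Ring S]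
    {A : Type z} {B : Type t} [AddCommGroup A] [AddCommGroup B] [Module R A] [Module S B]
    [Finite R] [Finite S] [Finite ι] (f : ∀ i, (Fin (ar i) → A) → B) :
    ∃ (E₁ : Set (Term1 R × Term1 R)) (E₂ : Set (Term2 R S ar × Term2 R S ar)),
      E₁.Finite ∧ E₂.Finite ∧
      (∀ p ∈ E₁, ∀ x : ℕ → A, p.1.eval x = p.2.eval x) ∧
      (∀ p ∈ E₂, ∀ (x : ℕ → A) (y : ℕ → B), p.1.eval f x y = p.2.eval f x y) ∧
      (∀ s t : Term1 R, (∀ x : ℕ → A, s.eval x = t.eval x) → Derives1 E₁ s t) ∧
      (∀ s t : Term2 R S ar, (∀ (x : ℕ → A) (y : ℕ → B), s.eval f x y = t.eval f x y) →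
        Derives2 E₁ E₂ s t) := by
  classical
  let _ : Fintype R := Fintype.ofFinite R
  let _ : Fintype ι := Fintype.ofFinite ι
  let _ : LinearOrder (Col R ar) :=
    LinearOrder.lift' (Fintype.equivFin (Col R ar)) (Equiv.injective _)
  obtain ⟨K, hK⟩ := fg (rel (S := S) (R := R) f) (rel_push f)
  let E₁ : Set (Term1 R × Term1 R) := {p | Ax1 R p.1 p.2} ∪
    (fun r : R => ((.smul r (.var 0), .zero) : Term1 R × Term1 R)) '' {r | ∀ a : A, r • a = 0}
  let E₂ : Set (Term2 R S ar × Term2 R S ar) := ({p | Ax2 R S ar p.1 p.2} ∪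
    (fun r : S => ((.smul r (.var 0), .zero) : Term2 R S ar × Term2 R S ar)) ''
      {r | ∀ b : B, r • b = 0}) ∪
    ⋃ k ∈ Set.Iic K, (fun c : (Fin (k + 1) → Col R ar) → (ι → S) =>
      ((relTerm c, .zero) : Term2 R S ar × Term2 R S ar)) ''
        {c | c ∈ rel (S := S) (R := R) f k}
  have h1 : ∀ a b, Ax1 R a b → (a, b) ∈ E₁ := fun a b h => Or.inl h
  have h2 : ∀ a b, Ax2 R S ar a b → (a, b) ∈ E₂ := fun a b h => Or.inl (Or.inl h)
  let _ := grp1 h1
  let _ := mod1 h1
  let _ := grp2 (E₁ := E₁) h2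
  let _ := mod2 (E₁ := E₁) h2
  have hs1 : ∀ s : Term1 R, mk1 E₁ s = s.eval (fun n => mk1 E₁ (.var n)) := by
    intro s
    have := mk1_subst h1 Term1.var s
    rw [Term1.subst_var] at this
    exact this
  have hs2 : ∀ s : Term2 R S ar, mk2 E₁ E₂ s
      = s.eval (opQ E₁ E₂) (fun n => mk1 E₁ (.var n)) (fun n => mk2 E₁ E₂ (.var n)) := by
    intro s
    have := mk2_subst h1 h2 Term1.var Term2.var s
    rw [Term2.subst_var] at this
    exact this
  have hann1 : ∀ r : R, (∀ a : A, r • a = 0) → ∀ q : Q1 E₁, r • q = 0 := by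
    intro r hr q
    obtain ⟨s, rfl⟩ := mk1_surj q
    have hmem : ((.smul r (.var 0), .zero) : Term1 R × Term1 R) ∈ E₁ := Or.inr ⟨r, hr, rfl⟩
    exact mk1_eq.2 (Derives1.ax hmem (fun _ => s))
  have hann2 : ∀ r : S, (∀ b : B, r • b = 0) → ∀ q : Q2 E₁ E₂, r • q = 0 := by
    intro r hr q
    obtain ⟨s, rfl⟩ := mk2_surj q
    have hmem : ((.smul r (.var 0), .zero) : Term2 R S ar × Term2 R S ar) ∈ E₂ :=
      Or.inl (Or.inr ⟨r, hr, rfl⟩)
    exact mk2_eq.2 (Derives2.ax hmem Term1.var (fun _ => s))
  have hrel : ∀ n, rel (S := S) (R := R) f n ≤ rel (opQ E₁ E₂) n := by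
    apply hK _ (rel_push _)
    intro k hk c hc x
    choose σ hσ using fun j => mk1_surj (x j)
    have hmem : ((relTerm c, .zero) : Term2 R S ar × Term2 R S ar) ∈ E₂ := by
      refine Or.inr ?_
      simp only [Set.mem_iUnion]
      exact ⟨k, hk, c, hc, rfl⟩
    let σ' : ℕ → Term1 R := fun n => if h : n < k + 1 then σ ⟨n, h⟩ else .zero
    have h3 := mk2_eq.2 (Derives2.ax (E₁ := E₁) hmem σ' Term2.var)
    rw [mk2_subst h1 h2 σ' Term2.var (relTerm c)] at h3
    rw [relTerm_eval] at h3
    have hx : (fun j : Fin (k + 1) => mk1 E₁ (σ' j)) = x := by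
      funext j
      have : σ' j = σ j := by
        simp only [σ', j.2, dif_pos]
      rw [this]
      exact hσ j
    rw [hx] at h3
    exact h3
  refine ⟨E₁, E₂, ?_, ?_, ?_, ?_, ?_, ?_⟩
  · exact ax1_finite.union ((Set.toFinite _).image _)
  · refine (ax2_finite.union ((Set.toFinite _).image _)).union ?_
    refine (Set.finite_Iic K).biUnion ?_
    intro k _
    exact (Set.toFinite _).image _
  · rintro ⟨a, b⟩ (h | ⟨r, hr, h⟩) x
    · exact ax1_valid h x
    · rw [← h]
      exact hr (x 0)
  · rintro ⟨a, b⟩ ((h | ⟨r, hr, h⟩) | h) x y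
    · exact ax2_valid h f x y
    · rw [← h]
      exact hr (y 0)
    · simp only [Set.mem_iUnion] at h
      obtain ⟨k, _, c, hc, h⟩ := h
      rw [← h]
      change (relTerm c).eval f x y = 0
      rw [relTerm_eval]
      exact hc _
  · intro s t hst
    obtain ⟨k₁, hk₁⟩ := s.exists_below
    obtain ⟨k₂, hk₂⟩ := t.exists_below
    have hs := hk₁.mono (le_max_left k₁ k₂)
    have ht := hk₂.mono (le_max_right k₁ k₂)
    generalize max k₁ k₂ = k at hs ht
    apply mk1_eq.1
    rw [hs1, hs1, Term1.eval_eq k _ s hs, Term1.eval_eq k _ t ht, ← sub_eq_zero,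
      ← Finset.sum_sub_distrib]
    apply Finset.sum_eq_zero
    intro j _
    rw [← sub_smul]
    apply hann1
    intro a
    have h := hst (Pi.single (j : ℕ) a)
    rw [Term1.eval_eq k _ s hs, Term1.eval_eq k _ t ht, Finset.sum_eq_single j,
      Finset.sum_eq_single j] at h
    · rw [sub_smul, sub_eq_zero]
      simpa using h
    · intro b _ hb
      have : (b : ℕ) ≠ j := fun h => hb (Fin.ext h)
      simp [this]
    · intro h; exact absurd (Finset.mem_univ _) h
    · intro b _ hb
      have : (b : ℕ) ≠ j := fun h => hb (Fin.ext h)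
      simp [this]
    · intro h; exact absurd (Finset.mem_univ _) h
  · intro s t hst
    obtain ⟨k₁, hk₁⟩ := s.exists_below
    obtain ⟨k₂, hk₂⟩ := t.exists_below
    have hs := hk₁.mono (le_max_left k₁ k₂)
    have ht := hk₂.mono (le_max_right k₁ k₂)
    generalize max k₁ k₂ = k at hs ht
    -- the relation
    have hc : s.comb k - t.comb k ∈ rel (S := S) (R := R) f k := by
      intro x
      have h := hst (fun n => if h : n < k + 1 then x ⟨n, h⟩ else 0) 0
      rw [Term2.eval_eq k _ _ _ s hs, Term2.eval_eq k _ _ _ t ht] at h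
      have hx : (fun j : Fin (k + 1) => (if h : (j : ℕ) < k + 1 then x ⟨j, h⟩ else 0)) = x := by
        funext j
        rw [dif_pos j.2]
      rw [hx] at h
      rw [sub_eq_add_neg, val_add, val_neg]
      simpa [sub_eq_zero, add_neg_eq_zero] using h
    have hcoef : ∀ j : Fin (k + 1), ∀ b : B, (s.coef j - t.coef j) • b = 0 := by
      intro j b
      have h := hst 0 (Pi.single (j : ℕ) b)
      rw [Term2.eval_eq k _ _ _ s hs, Term2.eval_eq k _ _ _ t ht] at h
      have h' := hc (fun _ => 0)
      rw [sub_eq_add_neg, val_add, val_neg, add_neg_eq_zero] at h'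
      have h'' : val f (s.comb k) (fun j : Fin (k + 1) => (0 : ℕ → A) j)
          = val f (t.comb k) (fun j : Fin (k + 1) => (0 : ℕ → A) j) := h'
      rw [h''] at h
      have h3 := add_right_cancel h
      rw [Finset.sum_eq_single j, Finset.sum_eq_single j] at h3
      · rw [sub_smul, sub_eq_zero]
        simpa using h3
      · intro b _ hb
        have : (b : ℕ) ≠ j := fun h => hb (Fin.ext h)
        simp [this]
      · intro h; exact absurd (Finset.mem_univ _) h
      · intro b _ hb
        have : (b : ℕ) ≠ j := fun h => hb (Fin.ext h)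
        simp [this]
      · intro h; exact absurd (Finset.mem_univ _) h
    apply mk2_eq.1
    rw [hs2, hs2, Term2.eval_eq k _ _ _ s hs, Term2.eval_eq k _ _ _ t ht]
    have e1 : ∑ j : Fin (k + 1), s.coef j • mk2 E₁ E₂ (.var (j : ℕ))
        = ∑ j : Fin (k + 1), t.coef j • mk2 E₁ E₂ (.var (j : ℕ)) := by
      apply Finset.sum_congr rfl
      intro j _
      rw [← sub_eq_zero, ← sub_smul]
      exact hann2 _ (hcoef j) _
    have e2 := hrel k hc (fun j : Fin (k + 1) => mk1 E₁ (.var (j : ℕ)))
    rw [sub_eq_add_neg, val_add, val_neg, add_neg_eq_zero] at e2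
    rw [e1, e2]

end Pool.Agent.Q115.Clo
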