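import Pool.Agent.Q119.Clo.Chains

set_option autoImplicit false

/-!
Finite generation of families of subgroups of `(Fin (n + 1) → Γ) → M` closed under the
repetition of letters (push forward along ordered surjections).
-/

namespace Pool.Agent.Q115.Clo

open Pool.Agent.Q119.Clo

universe u v

variable {Γ : Type u} {M : Type v}

open Classical in
/-- Push forward along the repetition of letters. -/
noncomputable def psh [Zero M] {m n : ℕ} (a : Adm m n) (φ : (Fin (n + 1) → Γ) → M) :
    (Fin (m + 1) → Γ) → M :=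
  fun w => if (w ∘ a.f) ∘ a.s = w then φ (w ∘ a.f) else 0

theorem psh_comp [Zero M] {m n : ℕ} (a : Adm m n) (φ : (Fin (n + 1) → Γ) → M)
    (v : Fin (n + 1) → Γ) : psh a φ (v ∘ a.s) = φ v := by
  have hsf : (v ∘ a.s) ∘ a.f = v := by
    funext i; simp [a.sec]
  unfold psh
  rw [if_pos (by rw [hsf]), hsf]

/-- A sum over all long words of a push forward is the sum over the short words. -/
theorem sum_psh [Fintype Γ] [Zero M] {P : Type*} [AddCommMonoid P] {m n : ℕ} (a : Adm m n)
    (φ : (Fin (n + 1) → Γ) → M) (F : (Fin (m + 1) → Γ) → M → P) (hF : ∀ w, F w 0 = 0) :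
    ∑ w, F w (psh a φ w) = ∑ v, F (v ∘ a.s) (φ v) := by
  classical
  have hinj : Function.Injective (fun v : Fin (n + 1) → Γ => v ∘ a.s) := by
    intro v v' h
    have h2 : (v ∘ a.s) ∘ a.f = (v' ∘ a.s) ∘ a.f := congrArg (fun z => z ∘ a.f) h
    funext i
    have := congrFun h2 i
    simpa [a.sec] using this
  have h1 : ∑ v, F (v ∘ a.s) (φ v)
      = ∑ w ∈ Finset.univ.map ⟨fun v : Fin (n + 1) → Γ => v ∘ a.s, hinj⟩, F w (psh a φ w) := by
    rw [Finset.sum_map]
    apply Finset.sum_congr rfl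
    intro v _
    simp [psh_comp]
  rw [h1]
  symm
  apply Finset.sum_subset (Finset.subset_univ _)
  intro w _ hw
  have : psh a φ w = 0 := by
    unfold psh
    rw [if_neg]
    intro h
    apply hw
    rw [Finset.mem_map]
    exact ⟨w ∘ a.f, Finset.mem_univ _, h⟩
  rw [this, hF]

variable [AddCommGroup M]

/-- Families of subgroups closed under the repetition of letters. -/
def PushClosed (E : ∀ n, AddSubgroup ((Fin (n + 1) → Γ) → M)) : Prop :=
  ∀ m n (a : Adm m n) (φ : (Fin (n + 1) → Γ) → M), φ ∈ E n → psh a φ ∈ E m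

variable [LinearOrder Γ]

theorem lc_le_of_le {E : ∀ n, AddSubgroup ((Fin (n + 1) → Γ) → M)} (hE : PushClosed E)
    {v w : Word Γ} (h : Le v w) : lc E v ≤ lc E w := by
  obtain ⟨a, ha⟩ := h
  rintro b ⟨φ, hφ, rfl, h2⟩
  have hsf : (v.2 ∘ a.s) ∘ a.f = v.2 := by
    funext i; simp [a.sec]
  refine ⟨psh a φ, hE _ _ a φ hφ, ?_, fun x hx => ?_⟩
  · rw [ha]
    exact psh_comp a φ v.2
  · unfold psh
    split_ifs with hx'
    · apply h2
      rw [ha] at hx
      rcases LexLt.trichotomy v.2 (x ∘ a.f) with h3 | h3 | h3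
      · exact h3
      · exfalso
        rw [h3, hx'] at hx
        exact LexLt.irrefl _ hx
      · exfalso
        have h4 := h3.comp a
        rw [hx'] at h4
        exact LexLt.irrefl _ (h4.trans hx)
    · rfl

theorem exists_bound [Finite Γ] [Finite M] (C : ∀ n, AddSubgroup ((Fin (n + 1) → Γ) → M)) :
    ∃ K, ∀ w : Word Γ, ∃ v : Word Γ, v.1 ≤ K ∧ Le v w ∧ lc C v = lc C w := by
  by_contra hcon
  push Not at hcon
  choose w hw using hcon
  -- a sequence of bounds
  let κ : ℕ → ℕ := fun i => Nat.rec 0 (fun _ k => max k (w k).1) i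
  have hκ : ∀ i, κ (i + 1) = max (κ i) (w (κ i)).1 := fun i => rfl
  have hmono : Monotone κ := monotone_nat_of_le_succ (fun i => by rw [hκ]; exact le_max_left _ _)
  have : Finite (AddSubgroup M) := by
    apply Finite.of_injective (fun S : AddSubgroup M => (S : Set M)) SetLike.coe_injective
  have hset : WellQuasiOrdered (fun S T : AddSubgroup M => S = T) := Finite.wellQuasiOrdered _
  have hprod := WellQuasiOrdered.prod (wqo_word (Γ := Γ)) hset
  obtain ⟨i, j, hij, h1, h2⟩ := hprod (fun i => (w (κ i), lc C (w (κ i))))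
  have hle : (w (κ i)).1 ≤ κ j := by
    have h3 : κ (i + 1) ≤ κ j := hmono hij
    rw [hκ] at h3
    exact (le_max_right _ _).trans h3
  exact hw (κ j) (w (κ i)) hle h1 h2

/-- A family closed under the repetition of letters is generated by finitely many of its
components. -/
theorem fg [Finite Γ] [Finite M] (C : ∀ n, AddSubgroup ((Fin (n + 1) → Γ) → M))
    (hC : PushClosed C) :
    ∃ K, ∀ D : ∀ n, AddSubgroup ((Fin (n + 1) → Γ) → M), PushClosed D →
      (∀ n ≤ K, C n ≤ D n) → ∀ n, C n ≤ D n := by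
  obtain ⟨K, hK⟩ := exists_bound C
  refine ⟨K, fun D hD hle n => ?_⟩
  have hE : PushClosed (fun n => C n ⊓ D n) := fun m n a φ hφ =>
    ⟨hC m n a φ hφ.1, hD m n a φ hφ.2⟩
  have h := eq_of_lc (C := fun n => C n ⊓ D n) (D := C) (fun n => inf_le_left) (fun w => ?_) n
  · exact inf_eq_left.1 h
  · obtain ⟨v, hv, hvw, hlc⟩ := hK w
    rw [← hlc]
    refine le_trans ?_ (lc_le_of_le hE hvw)
    rintro b ⟨φ, hφ, hb, hz⟩
    exact ⟨φ, ⟨hφ, hle _ hv hφ⟩, hb, hz⟩

end Pool.Agent.Q115.Clo
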