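import Pool.Agent.Q115.Clo.Noeth

set_option autoImplicit false

/-!
The relations between the functions `f i (T x)`, where `T` runs through matrices.
-/

namespace Pool.Agent.Q115.Clo

open Pool.Agent.Q119.Clo

universe u v w z t

section

variable {R : Type u} {S : Type v} {ι : Type w} {ar : ι → ℕ}

/-- Columns of the matrices: one entry for every argument place of every operation. -/
abbrev Col (R : Type u) {ι : Type w} (ar : ι → ℕ) : Type (max u w) := (Σ i, Fin (ar i)) → R

variable [Ring R] [Ring S] {A : Type z} {B : Type t} [AddCommGroup A] [AddCommGroup B]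
  [Module R A] [Module S B]

/-- The arguments of `f i` given by the matrix with columns `c`. -/
def argOf {n : ℕ} (c : Fin (n + 1) → Col R ar) (i : ι) (x : Fin (n + 1) → A) :
    Fin (ar i) → A :=
  fun a => ∑ j, c j ⟨i, a⟩ • x j

variable [Fintype R] [Fintype ι] [DecidableEq ι]

open Classical in
/-- The value of a formal combination. -/
noncomputable def val (f : ∀ i, (Fin (ar i) → A) → B) {n : ℕ}
    (c : (Fin (n + 1) → Col R ar) → (ι → S)) (x : Fin (n + 1) → A) : B :=
  ∑ w, ∑ i, c w i • f i (argOf w i x)

theorem val_add (f : ∀ i, (Fin (ar i) → A) → B) {n : ℕ}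
    (c d : (Fin (n + 1) → Col R ar) → (ι → S)) (x : Fin (n + 1) → A) :
    val f (c + d) x = val f c x + val f d x := by
  simp [val, add_smul, Finset.sum_add_distrib]

theorem val_zero (f : ∀ i, (Fin (ar i) → A) → B) {n : ℕ} (x : Fin (n + 1) → A) :
    val f (0 : (Fin (n + 1) → Col R ar) → (ι → S)) x = 0 := by
  simp [val]

theorem val_neg (f : ∀ i, (Fin (ar i) → A) → B) {n : ℕ}
    (c : (Fin (n + 1) → Col R ar) → (ι → S)) (x : Fin (n + 1) → A) :
    val f (-c) x = - val f c x := by
  simp [val]

theorem val_smul (f : ∀ i, (Fin (ar i) → A) → B) {n : ℕ} (s : S)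
    (c : (Fin (n + 1) → Col R ar) → (ι → S)) (x : Fin (n + 1) → A) :
    val f (s • c) x = s • val f c x := by
  simp [val, Finset.smul_sum, mul_smul]

/-- The relations. -/
noncomputable def rel (f : ∀ i, (Fin (ar i) → A) → B) (n : ℕ) :
    AddSubgroup ((Fin (n + 1) → Col R ar) → (ι → S)) where
  carrier := {c | ∀ x, val f c x = 0}
  zero_mem' := fun x => val_zero f x
  add_mem' := fun {c d} hc hd x => by rw [val_add, hc, hd, add_zero]
  neg_mem' := fun {c} hc x => by rw [val_neg, hc, neg_zero]

theorem mem_rel {f : ∀ i, (Fin (ar i) → A) → B} {n : ℕ}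
    {c : (Fin (n + 1) → Col R ar) → (ι → S)} : c ∈ rel f n ↔ ∀ x, val f c x = 0 := Iff.rfl

theorem rel_push (f : ∀ i, (Fin (ar i) → A) → B) : PushClosed (rel (R := R) (S := S) f) := by
  classical
  intro m n a c hc x
  unfold val
  rw [sum_psh a c (fun w d => ∑ i, d i • f i (argOf w i x)) (by intro w; simp)]
  have h := hc (fun l => ∑ j, if a.s j = l then x j else 0)
  unfold val at h
  rw [← h]
  apply Finset.sum_congr rfl
  intro v _
  apply Finset.sum_congr rfl
  intro i _
  congr 2
  funext b
  unfold argOf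
  have : ∀ l, v l ⟨i, b⟩ • (∑ j, if a.s j = l then x j else 0)
      = ∑ j, if a.s j = l then v l ⟨i, b⟩ • x j else 0 := by
    intro l
    rw [Finset.smul_sum]
    apply Finset.sum_congr rfl
    intro j _
    split_ifs
    · rfl
    · simp
  simp only [this]
  rw [Finset.sum_comm]
  apply Finset.sum_congr rfl
  intro j _
  simp

end

end Pool.Agent.Q115.Clo
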